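import Pool.Agent.Lib.SE86.Tow

set_option autoImplicit false

namespace Pool.Agent.Results.MP_28a49a_al.NonElementary

/-- word length of `g` with respect to the generating family `s` -/
noncomputable def wordLength {G β : Type} [Group G] (s : β → G) (g : G) : ℕ :=
  sInf {k : ℕ | ∃ l : List (β × Bool), l.length = k ∧ FreeGroup.lift s (FreeGroup.mk l) = g}

/-- Gromov product `(x | y)_o` in the word metric -/
noncomputable def gromovProduct {G β : Type} [Group G] (s : β → G) (o x y : G) : ℝ :=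
  ((wordLength s (o⁻¹ * x) : ℝ) + wordLength s (o⁻¹ * y) - wordLength s (x⁻¹ * y)) / 2

/-- finitely generated with Gromov hyperbolic word metric -/
def IsHyperbolic (G : Type) [Group G] : Prop :=
  ∃ (β : Type) (_ : Finite β) (s : β → G), Function.Surjective (FreeGroup.lift s) ∧
    ∃ δ : ℝ, 0 ≤ δ ∧ ∀ o x y z : G,
      min (gromovProduct s o x z) (gromovProduct s o z y) - δ ≤ gromovProduct s o x y

/-- least number of conjugates of relators or their inverses with product `w` -/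
noncomputable def area {α : Type} (R : Set (FreeGroup α)) (w : FreeGroup α) : ℕ :=
  sInf {N : ℕ | ∃ L : List (FreeGroup α × FreeGroup α), L.length = N ∧
    (∀ p ∈ L, p.2 ∈ R ∨ p.2⁻¹ ∈ R) ∧ (L.map fun p => p.1 * p.2 * p.1⁻¹).prod = w}

/-- Dehn function of the presentation with generators `α` and relators `R` -/
noncomputable def dehn {α : Type} (R : Set (FreeGroup α)) (n : ℕ) : ℕ :=
  sSup {N : ℕ | ∃ l : List (α × Bool), l.length ≤ n ∧
    PresentedGroup.mk R (FreeGroup.mk l) = 1 ∧ area R (FreeGroup.mk l) = N}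

theorem exists_filling {α : Type} (R : Set (FreeGroup α)) {w : FreeGroup α}
    (hw : w ∈ Subgroup.normalClosure R) : ∃ L : List (FreeGroup α × FreeGroup α),
      (∀ p ∈ L, p.2 ∈ R ∨ p.2⁻¹ ∈ R) ∧ (L.map fun p => p.1 * p.2 * p.1⁻¹).prod = w := by
  unfold Subgroup.normalClosure at hw
  induction hw using Subgroup.closure_induction'' with
  | one => exact ⟨[], by simp, by simp⟩
  | mem x hx =>
    obtain ⟨r, hr, hc⟩ := Group.mem_conjugatesOfSet_iff.1 hx
    obtain ⟨c, rfl⟩ := isConj_iff.1 hc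
    exact ⟨[(c, r)], by simp [hr], by simp⟩
  | inv_mem x hx =>
    obtain ⟨r, hr, hc⟩ := Group.mem_conjugatesOfSet_iff.1 hx
    obtain ⟨c, rfl⟩ := isConj_iff.1 hc
    exact ⟨[(c, r⁻¹)], by simp [hr], by simp [mul_assoc]⟩
  | mul x y _ _ ihx ihy =>
    obtain ⟨L, h1, h2⟩ := ihx
    obtain ⟨L', h1', h2'⟩ := ihy
    refine ⟨L ++ L', fun p hp => ?_, by rw [List.map_append, List.prod_append, h2, h2']⟩
    rcases List.mem_append.1 hp with h | h
    · exact h1 p h
    · exact h1' p h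

theorem area_le_dehn {α : Type} [Finite α] (R : Set (FreeGroup α)) {n : ℕ} {l : List (α × Bool)}
    (h1 : l.length ≤ n) (h2 : PresentedGroup.mk R (FreeGroup.mk l) = 1) :
    area R (FreeGroup.mk l) ≤ dehn R n := by
  refine le_csSup (Set.Finite.bddAbove ?_) ⟨l, h1, h2, rfl⟩
  refine ((List.finite_length_le (α × Bool) n).image fun l => area R (FreeGroup.mk l)).subset ?_
  rintro _ ⟨l, k1, _, rfl⟩
  exact ⟨l, k1, rfl⟩

theorem dehn_mono {α : Type} [Finite α] (R : Set (FreeGroup α)) {m n : ℕ} (h : m ≤ n) :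
    dehn R m ≤ dehn R n := by
  refine csSup_le' ?_
  rintro _ ⟨l, h1, h2, rfl⟩
  exact area_le_dehn R (h1.trans h) h2

theorem of_big {F : ℕ → ℕ} (h : Pool.Agent.Lib.SE86.Big F) : ∃ (G : Type) (_ : Group G),
    IsHyperbolic G ∧ ∃ (H : Subgroup G) (α : Type) (_ : Finite α) (R : Set (FreeGroup α)),
      R.Finite ∧ Nonempty (PresentedGroup R ≃* H) ∧ ∃ K c : ℕ, 2 ≤ K ∧
        ∀ k, F k ≤ c * dehn R (c * K ^ (k + 1)) + K ^ (k + 1) := by
  obtain ⟨G, _, ⟨β, _, s, hs, d, hd, δ, hδ⟩, α, _, φ, R, hR, K, c, hK, hC⟩ := h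
  refine ⟨G, inferInstance, ⟨β, inferInstance, s, hs, δ, by positivity, fun o x y z => ?_⟩,
    φ.range, α, inferInstance, R, R.finite_toSet,
    ⟨(QuotientGroup.quotientMulEquivOfEq hR.symm).trans (QuotientGroup.quotientKerEquivRange φ)⟩,
    K, c, hK, fun k => ?_⟩
  · have sym : ∀ a b : G, d a b = d b a := by
      have key : ∀ a b : G, d a b ≤ d b a := by
        intro a b
        have hne : {k : ℕ | ∃ l : List (β × Bool),
            l.length = k ∧ FreeGroup.lift s (FreeGroup.mk l) = b⁻¹ * a}.Nonempty := by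
          classical
          obtain ⟨w, hw⟩ := hs (b⁻¹ * a)
          exact ⟨_, w.toWord, rfl, by rw [FreeGroup.mk_toWord, hw]⟩
        obtain ⟨l, h1, h2⟩ := Nat.sInf_mem hne
        rw [hd, hd, ← h1]
        refine Nat.sInf_le ⟨FreeGroup.invRev l, FreeGroup.invRev_length, ?_⟩
        rw [← FreeGroup.inv_mk, map_inv, h2]; group
      exact fun a b => le_antisymm (key a b) (key b a)
    have h := hδ x o y z
    unfold gromovProduct wordLength
    simp only [← hd]
    rw [sym x o, sym y z] at h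
    rcases le_max_iff.1 (le_refl (max (d o x + d z y) (d x z + d o y))) with h1 | h1
    · have h2 : (d x y : ℝ) + d o z ≤ d o x + d z y + 2 * δ := by exact_mod_cast (by omega)
      have := min_le_right (((d o x : ℝ) + d o z - d x z) / 2) (((d o z : ℝ) + d o y - d z y) / 2)
      linarith
    · have h2 : (d x y : ℝ) + d o z ≤ d x z + d o y + 2 * δ := by exact_mod_cast (by omega)
      have := min_le_left (((d o x : ℝ) + d o z - d x z) / 2) (((d o z : ℝ) + d o y - d z y) / 2)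
      linarith
  · obtain ⟨w, h1, ⟨l, h2, rfl⟩, h3⟩ := hC k
    have hw : FreeGroup.mk l ∈ Subgroup.normalClosure (R : Set (FreeGroup α)) := hR ▸ h1
    obtain ⟨L0, k1, k2⟩ := exists_filling _ hw
    obtain ⟨L, m1, m2, m3⟩ := Nat.sInf_mem (s := {N : ℕ | ∃ L : List (FreeGroup α × FreeGroup α),
      L.length = N ∧ (∀ p ∈ L, p.2 ∈ (R : Set (FreeGroup α)) ∨ p.2⁻¹ ∈ (R : Set (FreeGroup α))) ∧
      (L.map fun p => p.1 * p.2 * p.1⁻¹).prod = FreeGroup.mk l}) ⟨_, L0, rfl, k1, k2⟩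
    have h5 : L.length ≤ dehn (R : Set (FreeGroup α)) (c * K ^ (k + 1)) := by
      rw [m1]
      exact area_le_dehn _ h2 ((QuotientGroup.eq_one_iff _).2 hw)
    exact (h3 L m2 m3).trans (Nat.add_le_add_right (Nat.mul_le_mul_left c h5) _)

theorem two_pow_mono : Monotone fun x : ℕ => 2 ^ x :=
  fun _ _ h => Nat.pow_le_pow_right two_pos h

theorem exp_iter_le (m n : ℕ) : Real.exp^[m] n ≤ ((fun x : ℕ => 2 ^ x)^[2 * m] n : ℕ) := by
  induction m with
  | zero => simp
  | succ m ih =>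
    rw [Function.iterate_succ_apply', Nat.mul_succ, Function.iterate_succ_apply',
      Function.iterate_succ_apply']
    generalize (fun x : ℕ => 2 ^ x)^[2 * m] n = y at ih ⊢
    have h1 : 2 * y ≤ 2 ^ y := by
      cases y with
      | zero => simp
      | succ y => rw [pow_succ, mul_comm]; exact Nat.mul_le_mul_right _ Nat.lt_two_pow_self
    have h2 : Real.exp y ≤ 2 ^ (2 * y) := by
      rw [pow_mul, ← Real.exp_one_pow]
      exact pow_le_pow_left₀ (Real.exp_pos 1).le (by linarith [Real.exp_one_lt_three]) y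
    refine (Real.exp_le_exp.2 ih).trans (h2.trans ?_)
    exact_mod_cast two_pow_mono h1

theorem le_tower (i : ℕ) : i ≤ (fun x : ℕ => 2 ^ x)^[i] 1 := by
  induction i with
  | zero => simp
  | succ i ih =>
    rw [Function.iterate_succ_apply']
    exact Nat.lt_two_pow_self.trans_le (two_pow_mono ih)

theorem iter_le_tower (M k : ℕ) (hk : 2 ^ (2 * M + 5) ≤ k + 1) :
    (fun x : ℕ => 2 ^ x)^[M] k ≤ (fun x : ℕ => 2 ^ x)^[Nat.log 2 (k + 1)] 1 := by
  have h1 : 2 * M + 5 ≤ Nat.log 2 (k + 1) := Nat.le_log_of_pow_le one_lt_two hk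
  have h2 : k + 1 < 2 ^ (Nat.log 2 (k + 1) + 1) := Nat.lt_pow_succ_log_self one_lt_two _
  obtain ⟨i, hi⟩ : ∃ i, Nat.log 2 (k + 1) = M + (i + 1 + 1 + 1) :=
    ⟨Nat.log 2 (k + 1) - M - 3, by omega⟩
  rw [hi] at h1 h2 ⊢
  rw [Function.iterate_add_apply]
  refine two_pow_mono.iterate M ?_
  rw [Function.iterate_succ_apply', Function.iterate_succ_apply']
  refine (Nat.le_succ k).trans (h2.le.trans (two_pow_mono ?_))
  refine le_trans ?_ (two_pow_mono (le_tower (i + 1)))
  have h3 : i < 2 ^ i := Nat.lt_two_pow_self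
  simp only [pow_succ]
  omega

theorem result : ∃ (G : Type) (_ : Group G), IsHyperbolic G ∧
    ∃ (H : Subgroup G) (α : Type) (_ : Finite α) (R : Set (FreeGroup α)), R.Finite ∧
      Nonempty (PresentedGroup R ≃* H) ∧ ∀ m : ℕ,
        ∃ C : ℕ, 0 < C ∧ ∀ n : ℕ, Real.exp^[m] n ≤ C * dehn R (C * n + C) + C * n + C := by
  obtain ⟨G, _, hG, H, α, _, R, hR, e, K, c, hK, h⟩ := of_big Pool.Agent.Lib.SE86.big_tower
  obtain ⟨n1, hn1⟩ := Pool.Agent.Lib.MP_28a49a_al.arith_log K hK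
  refine ⟨G, inferInstance, hG, H, α, inferInstance, R, hR, e, fun m => ?_⟩
  obtain ⟨n2, hn2⟩ : ∃ n2, n2 = n1 + 2 ^ 2 ^ 2 ^ (2 * (2 * m + 2) + 5) := ⟨_, rfl⟩
  obtain ⟨T, hT⟩ : ∃ T, T = (fun x : ℕ => 2 ^ x)^[2 * m] n2 := ⟨_, rfl⟩
  refine ⟨T + c + 1, by omega, fun n => (exp_iter_le m n).trans ?_⟩
  norm_cast
  by_cases hn : n2 ≤ n
  · obtain ⟨k, h1, h2⟩ := hn1 n (le_trans (hn2 ▸ Nat.le_add_right _ _) hn)
    have h0 : 2 ^ (2 * (2 * m + 2) + 5) ≤ k :=
      (Nat.pow_le_pow_iff_right one_lt_two).1 ((Nat.pow_le_pow_iff_right one_lt_two).1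
        ((le_trans (hn2 ▸ Nat.le_add_left _ _) hn).trans h2))
    have h3 : (fun x : ℕ => 2 ^ x)^[2 * m] n ≤ (fun x : ℕ => 2 ^ x)^[Nat.log 2 (k + 1)] 1 :=
      (two_pow_mono.iterate (2 * m) h2).trans (iter_le_tower (2 * m + 2) k (h0.trans k.le_succ))
    have h4 : dehn R (c * K ^ (k + 1)) ≤ dehn R ((T + c + 1) * n + (T + c + 1)) :=
      dehn_mono R (by nlinarith)
    have h5 := h k
    nlinarith [Nat.mul_le_mul_left c h4, Nat.zero_le ((T + c) * n),
      Nat.zero_le ((T + 1) * dehn R ((T + c + 1) * n + (T + c + 1)))]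
  · have : (fun x : ℕ => 2 ^ x)^[2 * m] n ≤ T := hT ▸ two_pow_mono.iterate _ (by omega)
    omega

end Pool.Agent.Results.MP_28a49a_al.NonElementary
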